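import Pool.Agent.H4.FD.Syl

set_option autoImplicit false

/-!
# A 2-subgroup which is self-normalising among the 2-subgroups is a Sylow 2-subgroup
-/

namespace ALoop

private theorem rel_card3 {M : Type*} [Group M] (P K : Subgroup M) (h : P ≤ K) :
    P.relIndex K * Nat.card P = Nat.card K := by
  rw [← Subgroup.relIndex_bot_left, ← Subgroup.relIndex_bot_left, mul_comm]
  exact Subgroup.relIndex_mul_relIndex ⊥ P K bot_le h

theorem isSyl_of_norm {M : Type*} [Group M] [Finite M] {K S : Subgroup M} (hSK : S ≤ K)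
    (hS : IsPGroup 2 S)
    (hN : ∀ N : Subgroup M, N ≤ K → S ≤ N → IsPGroup 2 N →
      (∀ n ∈ N, ∀ s ∈ S, n * s * n⁻¹ ∈ S) → N ≤ S) : IsSyl K S := by
  refine ⟨hSK, hS, fun hd => ?_⟩
  obtain ⟨n, hn⟩ := IsPGroup.iff_card.mp hS
  have c1 : S.relIndex K * Nat.card S = Nat.card K := rel_card3 S K hSK
  obtain ⟨a, ha⟩ := hd
  have c2 : 2 ^ (n + 1) ∣ Nat.card K := by
    refine ⟨a, ?_⟩
    rw [← c1, ha, hn]
    ring
  have c3 : Nat.card (S.subgroupOf K) = 2 ^ n := by
    rw [Nat.card_congr (Subgroup.subgroupOfEquivOfLe hSK).toEquiv, hn]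
  obtain ⟨K', hK', hle⟩ := Sylow.exists_subgroup_card_pow_succ c2 c3
  have k1 : K'.map K.subtype ≤ K := Subgroup.map_subtype_le _
  have k2 : S ≤ K'.map K.subtype := by
    intro x hx
    exact ⟨⟨x, hSK hx⟩, hle (Subgroup.mem_subgroupOf.mpr hx), rfl⟩
  have k3 : Nat.card (K'.map K.subtype) = 2 ^ (n + 1) := by
    rw [← hK']
    exact Nat.card_congr (K'.equivMapOfInjective _ (Subgroup.subtype_injective _)).toEquiv.symm
  have k6 : S.relIndex (K'.map K.subtype) = 2 := by
    have h := rel_card3 S (K'.map K.subtype) k2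
    rw [hn, k3] at h
    have h0 : 0 < 2 ^ n := by positivity
    apply Nat.eq_of_mul_eq_mul_right h0
    rw [h]
    ring
  have k7 : (S.subgroupOf (K'.map K.subtype)).Normal := Subgroup.normal_of_index_eq_two k6
  have k8 : ∀ k ∈ K'.map K.subtype, ∀ t ∈ S, k * t * k⁻¹ ∈ S := by
    intro k hk t ht
    have h := k7.conj_mem ⟨t, k2 ht⟩ (Subgroup.mem_subgroupOf.mpr ht) ⟨k, hk⟩
    exact Subgroup.mem_subgroupOf.mp h
  have k10 := hN _ k1 k2 (IsPGroup.of_card k3) k8
  have k11 : Nat.card (K'.map K.subtype) ≤ Nat.card S :=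
    Nat.card_le_card_of_injective (Subgroup.inclusion k10) (Subgroup.inclusion_injective k10)
  rw [k3, hn, pow_succ] at k11
  have : 0 < 2 ^ n := by positivity
  omega

end ALoop
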