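import Pool.Agent.H4.FD.Pset

set_option autoImplicit false

/-!
# The 2-part of an orbit
-/

namespace ALoop

open Equiv

private theorem rel_card4 {M : Type*} [Group M] (P K : Subgroup M) (h : P ≤ K) :
    P.relIndex K * Nat.card P = Nat.card K := by
  rw [← Subgroup.relIndex_bot_left, ← Subgroup.relIndex_bot_left, mul_comm]
  exact Subgroup.relIndex_mul_relIndex ⊥ P K bot_le h

private theorem orbit_index {Q : Type*} [Finite Q] {G : Subgroup (Perm Q)} {e : Q} {F : Set Q}
    (hF : ∀ p, p ∈ F ↔ ∃ g ∈ G, g e = p) : (Inn G e).relIndex G = Nat.card F := by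
  have h1 : (Inn G e).subgroupOf G = MulAction.stabilizer G e := by
    ext g
    rw [Subgroup.mem_subgroupOf, mem_Inn]
    exact ⟨fun hh => hh.2, fun hh => ⟨g.2, hh⟩⟩
  unfold Subgroup.relIndex
  rw [h1, MulAction.index_stabilizer]
  have h3 : MulAction.orbit G e = F := by
    ext p
    rw [hF p]
    constructor
    · rintro ⟨g, rfl⟩
      exact ⟨g, g.2, rfl⟩
    · rintro ⟨g, hg, rfl⟩
      exact ⟨⟨g, hg⟩, rfl⟩
  rw [h3]
  rfl

theorem odd_ratio {Q : Type*} [Finite Q] {G C S P : Subgroup (Equiv.Perm Q)} {e : Q}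
    (hCG : C ≤ G) (hPG : IsSyl G P) (hPC : IsSyl C P) (hSH : IsSyl (Inn G e) S)
    (hSC : IsSyl (Inn C e) S) (htr : ∀ p, ∃ g ∈ G, g e = p) {F : Set Q}
    (hF : ∀ p, p ∈ F ↔ ∃ g ∈ C, g e = p) :
    ∃ a b : ℕ, Odd a ∧ Odd b ∧ a * Nat.card Q = b * Nat.card F := by
  have i1 : (Inn G e).relIndex G = Nat.card Q := by
    have h := orbit_index (G := G) (e := e) (F := Set.univ)
      (fun p => ⟨fun _ => htr p, fun _ => Set.mem_univ p⟩)
    rw [h, Nat.card_univ]
  have i2 : (Inn C e).relIndex C = Nat.card F := orbit_index hF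
  have g1 := rel_card4 (Inn G e) G inf_le_left
  have g2 := rel_card4 (Inn C e) C inf_le_left
  have g3 := rel_card4 S (Inn G e) hSH.1
  have g4 := rel_card4 S (Inn C e) hSC.1
  have g5 := rel_card4 P G hPG.1
  have g6 := rel_card4 P C hPC.1
  have o1 : Odd (S.relIndex (Inn G e)) := Nat.not_even_iff_odd.mp fun h => hSH.2.2 h.two_dvd
  have o2 : Odd (S.relIndex (Inn C e)) := Nat.not_even_iff_odd.mp fun h => hSC.2.2 h.two_dvd
  have o3 : Odd (P.relIndex G) := Nat.not_even_iff_odd.mp fun h => hPG.2.2 h.two_dvd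
  have o4 : Odd (P.relIndex C) := Nat.not_even_iff_odd.mp fun h => hPC.2.2 h.two_dvd
  have hs : 0 < Nat.card S := Nat.card_pos
  refine ⟨S.relIndex (Inn G e) * P.relIndex C, S.relIndex (Inn C e) * P.relIndex G,
    o1.mul o4, o2.mul o3, ?_⟩
  rw [i1, ← g3] at g1
  rw [i2, ← g4] at g2
  apply Nat.eq_of_mul_eq_mul_right hs
  calc S.relIndex (Inn G e) * P.relIndex C * Nat.card Q * Nat.card S =
        P.relIndex C * (Nat.card Q * (S.relIndex (Inn G e) * Nat.card S)) := by ring
    _ = P.relIndex C * (P.relIndex G * Nat.card P) := by rw [g1, g5]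
    _ = P.relIndex G * (P.relIndex C * Nat.card P) := by ring
    _ = P.relIndex G * (Nat.card F * (S.relIndex (Inn C e) * Nat.card S)) := by rw [g6, g2]
    _ = S.relIndex (Inn C e) * P.relIndex G * Nat.card F * Nat.card S := by ring

end ALoop
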