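import Pool.Agent.H4.FD.Pset

set_option autoImplicit false

/-!
# The normaliser of a Sylow 2-subgroup of the inner mapping group: counting
-/

namespace ALoop

open Equiv

private theorem rel_card2 {M : Type*} [Group M] (P K : Subgroup M) (h : P ≤ K) :
    P.relIndex K * Nat.card P = Nat.card K := by
  rw [← Subgroup.relIndex_bot_left, ← Subgroup.relIndex_bot_left, mul_comm]
  exact Subgroup.relIndex_mul_relIndex ⊥ P K bot_le h

theorem norm_le {Q : Type*} [Finite Q] {G S T K : Subgroup (Equiv.Perm Q)} {e : Q} {k : ℕ}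
    (hS : IsSyl (Inn G e) S)
    (hF : ∀ p, (∀ s ∈ S, s p = p) → ∃ g ∈ G, (∀ s ∈ S, s * g = g * s) ∧ g e = p)
    (hTc : Nat.card T = 2 ^ k * Nat.card S)
    (hk : ¬ 2 ^ (k + 1) ∣ Nat.card {p : Q // ∀ s ∈ S, s p = p}) (hKG : K ≤ G)
    (hK2 : IsPGroup 2 K) (hTK : T ≤ K) (hKS : ∀ c ∈ K, ∀ s ∈ S, c * s * c⁻¹ ∈ S) : K ≤ T := by
  classical
  set N : Subgroup (Perm Q) := G ⊓ Subgroup.normalizer (S : Set (Perm Q)) with hN
  have hKN : K ≤ N := fun c hc => ⟨hKG hc, Subgroup.mem_normalizer_fintype fun s hs => hKS c hc s hs⟩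
  have hSI : S ≤ Inn G e := hS.1
  have hSN : S ≤ N := fun s hs => ⟨(hSI hs).1, Subgroup.le_normalizer hs⟩
  -- the stabiliser
  set C : Subgroup (Perm Q) := N ⊓ Inn G e with hC
  have hCN : C ≤ N := inf_le_left
  have hCs : IsSyl C S := hS.mono (le_inf hSN hSI) inf_le_right
  -- the orbit of `e`
  have h1 : C.subgroupOf N = MulAction.stabilizer N e := by
    ext g
    rw [Subgroup.mem_subgroupOf]
    constructor
    · intro hg
      exact hg.2.2
    · intro hg
      exact ⟨g.2, g.2.1, hg⟩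
  have h2 : C.relIndex N = Nat.card {p : Q // ∀ s ∈ S, s p = p} := by
    unfold Subgroup.relIndex
    rw [h1, MulAction.index_stabilizer]
    have h3 : MulAction.orbit N e = {p : Q | ∀ s ∈ S, s p = p} := by
      ext p
      constructor
      · rintro ⟨g, rfl⟩ s hs
        have hg : (g : Perm Q)⁻¹ * s * (g : Perm Q) ∈ S :=
          (Subgroup.mem_normalizer_iff''.mp g.2.2 s).mp hs
        have h4 : ((g : Perm Q)⁻¹ * s * (g : Perm Q)) e = e := (hSI hg).2
        have h5 : (g : Perm Q) (((g : Perm Q)⁻¹ * s * (g : Perm Q)) e) = (g : Perm Q) e := by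
          rw [h4]
        have h6 : ∀ y, (g : Perm Q) ((g : Perm Q)⁻¹ y) = y := fun y => by
          rw [← Perm.mul_apply, mul_inv_cancel, Perm.one_apply]
        rw [Perm.mul_apply, Perm.mul_apply, h6] at h5
        exact h5
      · intro hp
        obtain ⟨g, hg, hgS, rfl⟩ := hF p hp
        have hgN : g ∈ N := by
          refine ⟨hg, Subgroup.mem_normalizer_fintype fun s hs => ?_⟩
          rw [← hgS s hs, mul_inv_cancel_right]
          exact hs
        exact ⟨⟨g, hgN⟩, rfl⟩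
    rw [h3]
    rfl
  obtain ⟨b, hb⟩ := IsPGroup.iff_card.mp hS.2.1
  obtain ⟨a, ha⟩ := IsPGroup.iff_card.mp hK2
  have c1 : C.relIndex N * Nat.card C = Nat.card N := rel_card2 C N hCN
  have c2 : S.relIndex C * Nat.card S = Nat.card C := rel_card2 S C hCs.1
  have c3 : Nat.card K ∣ Nat.card N := Subgroup.card_dvd_of_le hKN
  have key : a ≤ k + b := by
    by_contra hlt
    push Not at hlt
    have h3 : 2 ^ (k + b + 1) ∣ Nat.card N := (pow_dvd_pow 2 hlt).trans (ha ▸ c3)
    rw [← c1, ← c2, hb, h2] at h3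
    have h4 : 2 ^ b * 2 ^ (k + 1) ∣
        2 ^ b * (Nat.card {p : Q // ∀ s ∈ S, s p = p} * S.relIndex C) := by
      have e1 : 2 ^ b * 2 ^ (k + 1) = 2 ^ (k + b + 1) := by
        rw [← pow_add]
        congr 1
        omega
      rw [e1]
      refine h3.trans (dvd_of_eq ?_)
      ring
    have h5 : 2 ^ (k + 1) ∣ Nat.card {p : Q // ∀ s ∈ S, s p = p} * S.relIndex C :=
      Nat.dvd_of_mul_dvd_mul_left (by positivity) h4
    have h6 : Nat.Coprime (2 ^ (k + 1)) (S.relIndex C) :=
      Nat.Coprime.pow_left _ ((Nat.Prime.coprime_iff_not_dvd Nat.prime_two).mpr hCs.2.2)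
    exact hk (h6.dvd_of_dvd_mul_right h5)
  have h7 : Nat.card K ≤ Nat.card T := by
    rw [hTc, ha, hb, ← pow_add]
    exact Nat.pow_le_pow_right (by norm_num) key
  rw [Subgroup.eq_of_le_of_card_ge hTK h7]

end ALoop
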