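import Mathlib

set_option autoImplicit false

/-!
# A group with centre of index at most 4 has a commutator subgroup of order at most 2
-/

open scoped commutatorElement

namespace ALoop

variable {G : Type*} [Group G]

private theorem cl_cover [Finite G] (h : (Subgroup.center G).index ≤ 4) {x y : G}
    (hxy : x * y ≠ y * x) (g : G) : g ∈ Subgroup.center G ∨ x⁻¹ * g ∈ Subgroup.center G ∨
      y⁻¹ * g ∈ Subgroup.center G ∨ (x * y)⁻¹ * g ∈ Subgroup.center G := by
  classical
  by_contra hcon
  push Not at hcon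
  obtain ⟨g1, g2, g3, g4⟩ := hcon
  have hx : x ∉ Subgroup.center G := fun hx => hxy ((Subgroup.mem_center_iff.1 hx y).symm)
  have hy : y ∉ Subgroup.center G := fun hy => hxy (Subgroup.mem_center_iff.1 hy x)
  have h1xy : x * y ∉ Subgroup.center G := fun hz => by
    have h1 := Subgroup.mem_center_iff.1 hz x
    rw [mul_assoc x y x] at h1
    exact hxy (mul_left_cancel h1)
  have hxy' : x⁻¹ * y ∉ Subgroup.center G := fun hz => by
    have h1 := Subgroup.mem_center_iff.1 hz x
    rw [mul_inv_cancel_left] at h1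
    apply hxy
    calc x * y = x * (x⁻¹ * y * x) := by rw [← h1]
      _ = y * x := by group
  have hyxy : y⁻¹ * (x * y) ∉ Subgroup.center G := fun hz => by
    have h1 := Subgroup.mem_center_iff.1 hz y
    rw [mul_inv_cancel_left] at h1
    apply hxy
    calc x * y = y * (y⁻¹ * (x * y)) := by group
      _ = y * x := by
        congr 1
        exact mul_right_cancel h1.symm
  obtain ⟨q, hq⟩ : ∃ q : G → G ⧸ Subgroup.center G, q = QuotientGroup.mk := ⟨_, rfl⟩
  have hne : ∀ a b : G, a⁻¹ * b ∉ Subgroup.center G → q a ≠ q b := by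
    intro a b hab he
    rw [hq] at he
    exact hab (QuotientGroup.eq.1 he)
  have n1 := hne 1 x (by rwa [inv_one, one_mul])
  have n2 := hne 1 y (by rwa [inv_one, one_mul])
  have n3 := hne 1 (x * y) (by rwa [inv_one, one_mul])
  have n4 := hne 1 g (by rwa [inv_one, one_mul])
  have n5 := hne x y hxy'
  have n6 := hne x (x * y) (by rwa [inv_mul_cancel_left])
  have n7 := hne x g g2
  have n8 := hne y (x * y) hyxy
  have n9 := hne y g g3
  have n10 := hne (x * y) g g4
  have hnd : [q 1, q x, q y, q (x * y), q g].Nodup := by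
    simp only [List.nodup_cons, List.mem_cons, List.not_mem_nil, or_false, not_or, not_false_eq_true,
      List.nodup_nil, and_true]
    exact ⟨⟨n1, n2, n3, n4⟩, ⟨n5, n6, n7⟩, ⟨n8, n9⟩, n10⟩
  have hfin : Finite (G ⧸ Subgroup.center G) := inferInstance
  cases nonempty_fintype (G ⧸ Subgroup.center G)
  have h5 := hnd.length_le_card
  rw [← Nat.card_eq_fintype_card, ← Subgroup.index] at h5
  simp only [List.length_cons, List.length_nil] at h5
  omega

private theorem cl_val [Finite G] (h : (Subgroup.center G).index ≤ 4) :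
    ∃ c : G, c * c = 1 ∧ ∀ a b : G, a * b = b * a ∨ a * b = c * (b * a) := by
  by_cases hc : ∀ a b : G, a * b = b * a
  · exact ⟨1, one_mul 1, fun a b => Or.inl (hc a b)⟩
  push Not at hc
  obtain ⟨x, y, hxy⟩ := hc
  have hcov := cl_cover h hxy
  have hx : x ∉ Subgroup.center G := fun hx => hxy ((Subgroup.mem_center_iff.1 hx y).symm)
  have hy : y ∉ Subgroup.center G := fun hy => hxy (Subgroup.mem_center_iff.1 hy x)
  -- `x²` is central
  have hx2 : x * x ∈ Subgroup.center G := by
    rcases hcov (x * x) with h1 | h1 | h1 | h1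
    · exact h1
    · rw [inv_mul_cancel_left] at h1
      exact absurd h1 hx
    · exfalso
      have h2 := Subgroup.mem_center_iff.1 h1 y
      rw [mul_inv_cancel_left] at h2
      -- `x² = y z`, so `y = x² z⁻¹` commutes with `x`
      have h3 := Subgroup.mem_center_iff.1 h1 x
      obtain ⟨z, hz⟩ : ∃ z : G, z = y⁻¹ * (x * x) := ⟨_, rfl⟩
      rw [← hz] at h3
      have h4 : y * z = x * x := by rw [hz, mul_inv_cancel_left]
      have h5 : x * y * z = y * x * z := by
        calc x * y * z = x * (y * z) := mul_assoc _ _ _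
          _ = x * (x * x) := by rw [h4]
          _ = (x * x) * x := (mul_assoc x x x).symm
          _ = (y * z) * x := by rw [h4]
          _ = y * (z * x) := mul_assoc _ _ _
          _ = y * (x * z) := by rw [h3]
          _ = y * x * z := (mul_assoc _ _ _).symm
      exact hxy (mul_right_cancel h5)
    · exfalso
      have h3 := Subgroup.mem_center_iff.1 h1 x
      obtain ⟨z, hz⟩ : ∃ z : G, z = (x * y)⁻¹ * (x * x) := ⟨_, rfl⟩
      rw [← hz] at h3
      have h4 : y * z = x := by
        rw [hz, mul_inv_rev]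
        group
      have h5 : x * y * z = y * x * z := by
        calc x * y * z = x * (y * z) := mul_assoc _ _ _
          _ = x * x := by rw [h4]
          _ = (y * z) * x := by rw [h4]
          _ = y * (z * x) := mul_assoc _ _ _
          _ = y * (x * z) := by rw [h3]
          _ = y * x * z := (mul_assoc _ _ _).symm
      exact hxy (mul_right_cancel h5)
  -- the commutator
  obtain ⟨c, hcd⟩ : ∃ c : G, c = x * y * (y * x)⁻¹ := ⟨_, rfl⟩
  have c1 : x * y = c * (y * x) := by rw [hcd, inv_mul_cancel_right]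
  have hcz : c ∈ Subgroup.center G := by
    have key : ∀ z ∈ Subgroup.center G, y * x = x * y * z → c ∈ Subgroup.center G := by
      intro z hz he
      have h1 : c = z⁻¹ := by
        have h2 : c * z = 1 := by
          have h3 := Subgroup.mem_center_iff.1 hz (x * y)
          have h4 : 1 * (x * y) = c * z * (x * y) := by
            rw [one_mul, mul_assoc c z (x * y), ← h3, ← he]
            exact c1
          exact (mul_right_cancel h4).symm
        exact eq_inv_of_mul_eq_one_left h2
      rw [h1]
      exact inv_mem hz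
    rcases hcov (y * x) with h1 | h1 | h1 | h1
    · exfalso
      have h2 := Subgroup.mem_center_iff.1 h1 y
      rw [mul_assoc y x y] at h2
      exact hxy (mul_left_cancel h2).symm
    · exfalso
      have h3 := Subgroup.mem_center_iff.1 h1 x
      rw [mul_inv_cancel_left] at h3
      -- `y x = x z`, `z` commutes with `x`, so `y = z`
      exact hxy (by
        have h4 : y = x⁻¹ * (y * x) := mul_right_cancel h3
        calc x * y = x * (x⁻¹ * (y * x)) := by rw [← h4]
          _ = y * x := mul_inv_cancel_left _ _)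
    · rw [inv_mul_cancel_left] at h1
      exact absurd h1 hx
    · exact key _ h1 (mul_inv_cancel_left _ _).symm
  have hcc : ∀ g : G, g * c = c * g := Subgroup.mem_center_iff.1 hcz
  have c2 : c * c = 1 := by
    have h1 : (x * x) * y = (c * c) * (y * (x * x)) := by
      calc (x * x) * y = x * (x * y) := mul_assoc _ _ _
        _ = x * (c * (y * x)) := by rw [← c1]
        _ = (x * c) * (y * x) := (mul_assoc _ _ _).symm
        _ = (c * x) * (y * x) := by rw [hcc]
        _ = c * (x * y) * x := by simp only [mul_assoc]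
        _ = c * (c * (y * x)) * x := by rw [← c1]
        _ = (c * c) * (y * (x * x)) := by simp only [mul_assoc]
    have h2 := Subgroup.mem_center_iff.1 hx2 y
    rw [h2] at h1
    exact (mul_eq_right.1 h1.symm)
  have c3 : y * x = c * (x * y) := by
    rw [c1, ← mul_assoc, c2, one_mul]
  have c4 : x * (x * y) = c * (x * y * x) := by
    calc x * (x * y) = x * (c * (y * x)) := by rw [← c1]
      _ = (x * c) * (y * x) := (mul_assoc _ _ _).symm
      _ = (c * x) * (y * x) := by rw [hcc]
      _ = c * (x * y * x) := by simp only [mul_assoc]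
  have c5 : x * y * x = c * (x * (x * y)) := by
    rw [c4, ← mul_assoc, c2, one_mul]
  have c6 : y * (x * y) = c * (x * y * y) := by
    calc y * (x * y) = (y * x) * y := (mul_assoc _ _ _).symm
      _ = c * (x * y) * y := by rw [c3]
      _ = c * (x * y * y) := by simp only [mul_assoc]
  have c7 : x * y * y = c * (y * (x * y)) := by
    rw [c6, ← mul_assoc, c2, one_mul]
  -- central factors do not matter
  have red : ∀ g k a b : G, g⁻¹ * a ∈ Subgroup.center G → k⁻¹ * b ∈ Subgroup.center G →
      (g * k = k * g ∨ g * k = c * (k * g)) → (a * b = b * a ∨ a * b = c * (b * a)) := by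
    intro g k a b hz hw hgk
    obtain ⟨z, hz'⟩ : ∃ z : G, z = g⁻¹ * a := ⟨_, rfl⟩
    obtain ⟨w, hw'⟩ : ∃ w : G, w = k⁻¹ * b := ⟨_, rfl⟩
    rw [← hz'] at hz
    rw [← hw'] at hw
    have ea : a = g * z := by rw [hz', mul_inv_cancel_left]
    have eb : b = k * w := by rw [hw', mul_inv_cancel_left]
    have zc := Subgroup.mem_center_iff.1 hz
    have wc := Subgroup.mem_center_iff.1 hw
    have e1 : a * b = (g * k) * (z * w) := by
      rw [ea, eb]
      calc g * z * (k * w) = g * (z * k) * w := by simp only [mul_assoc]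
        _ = g * (k * z) * w := by rw [zc]
        _ = (g * k) * (z * w) := by simp only [mul_assoc]
    have e2 : b * a = (k * g) * (z * w) := by
      rw [ea, eb]
      calc k * w * (g * z) = k * (w * g) * z := by simp only [mul_assoc]
        _ = k * (g * w) * z := by rw [wc]
        _ = (k * g) * (w * z) := by simp only [mul_assoc]
        _ = (k * g) * (z * w) := by rw [zc w]
    rcases hgk with h1 | h1
    · exact Or.inl (by rw [e1, e2, h1])
    · exact Or.inr (by rw [e1, e2, h1, mul_assoc])
  refine ⟨c, c2, fun a b => ?_⟩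
  have cov' : ∀ g : G, (1 : G)⁻¹ * g ∈ Subgroup.center G ∨ x⁻¹ * g ∈ Subgroup.center G ∨
      y⁻¹ * g ∈ Subgroup.center G ∨ (x * y)⁻¹ * g ∈ Subgroup.center G := by
    intro g
    rw [inv_one, one_mul]
    exact hcov g
  rcases cov' a with h1 | h1 | h1 | h1 <;> rcases cov' b with h2 | h2 | h2 | h2
  · exact red _ _ _ _ h1 h2 (Or.inl rfl)
  · exact red _ _ _ _ h1 h2 (Or.inl (by rw [one_mul, mul_one]))
  · exact red _ _ _ _ h1 h2 (Or.inl (by rw [one_mul, mul_one]))
  · exact red _ _ _ _ h1 h2 (Or.inl (by rw [one_mul, mul_one]))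
  · exact red _ _ _ _ h1 h2 (Or.inl (by rw [one_mul, mul_one]))
  · exact red _ _ _ _ h1 h2 (Or.inl rfl)
  · exact red _ _ _ _ h1 h2 (Or.inr c1)
  · exact red _ _ _ _ h1 h2 (Or.inr c4)
  · exact red _ _ _ _ h1 h2 (Or.inl (by rw [one_mul, mul_one]))
  · exact red _ _ _ _ h1 h2 (Or.inr c3)
  · exact red _ _ _ _ h1 h2 (Or.inl rfl)
  · exact red _ _ _ _ h1 h2 (Or.inr c6)
  · exact red _ _ _ _ h1 h2 (Or.inl (by rw [one_mul, mul_one]))
  · exact red _ _ _ _ h1 h2 (Or.inr c5)
  · exact red _ _ _ _ h1 h2 (Or.inr c7)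
  · exact red _ _ _ _ h1 h2 (Or.inl rfl)

/-- `|T : Z(T)| ≤ 4` implies `|T'| ≤ 2`. -/
theorem comm_lt {M : Type*} [Group M] [Finite M] {T T₀ : Subgroup M} (h0 : T₀ ≤ T)
    (hidx : T₀.relIndex T ≤ 4) (hcen : ∀ t ∈ T₀, ∀ b ∈ T, t * b = b * t) {a b : M}
    (ha : a ∈ ⁅T, T⁆) (hb : b ∈ ⁅T, T⁆) (ha1 : a ≠ 1) (hb1 : b ≠ 1) : a = b := by
  have hle : T₀.subgroupOf T ≤ Subgroup.center T := by
    intro t ht
    rw [Subgroup.mem_center_iff]
    intro g
    apply Subtype.ext
    exact (hcen t (Subgroup.mem_subgroupOf.1 ht) g g.2).symm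
  have hi : (Subgroup.center T).index ≤ 4 := by
    have h1 := Subgroup.index_dvd_of_le hle
    have h2 : (T₀.subgroupOf T).index ≠ 0 := Subgroup.index_ne_zero_of_finite
    exact (Nat.le_of_dvd (Nat.pos_of_ne_zero h2) h1).trans hidx
  obtain ⟨c, hc, hv⟩ := cl_val hi
  obtain ⟨d, hd⟩ : ∃ d : M, d = (c : M) := ⟨_, rfl⟩
  have hdd : d * d = 1 := by
    rw [hd, ← Subgroup.coe_mul, hc, Subgroup.coe_one]
  have hK : ⁅T, T⁆ ≤ Subgroup.zpowers d := by
    rw [Subgroup.commutator_le]
    intro g hg k hk
    rcases hv ⟨g, hg⟩ ⟨k, hk⟩ with h1 | h1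
    · have h2 : g * k = k * g := congrArg Subtype.val h1
      have h3 : ⁅g, k⁆ = 1 := commutatorElement_eq_one_iff_mul_comm.2 h2
      rw [h3]
      exact one_mem _
    · have h2 : g * k = d * (k * g) := by
        rw [hd]
        exact congrArg Subtype.val h1
      have h3 : ⁅g, k⁆ = d := by
        rw [commutatorElement_def, h2]
        group
      rw [h3]
      exact Subgroup.mem_zpowers d
  have hz : ∀ u ∈ Subgroup.zpowers d, u = 1 ∨ u = d := by
    intro u hu
    obtain ⟨m, rfl⟩ := Subgroup.mem_zpowers_iff.1 hu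
    have h2 : d ^ (2 : ℤ) = 1 := by
      rw [zpow_two, hdd]
    rcases Int.even_or_odd' m with ⟨j, hj | hj⟩
    · left
      rw [hj, zpow_mul, h2, one_zpow]
    · right
      rw [hj, zpow_add, zpow_mul, h2, one_zpow, one_mul, zpow_one]
  rcases hz a (hK ha) with h1 | h1
  · exact absurd h1 ha1
  rcases hz b (hK hb) with h2 | h2
  · exact absurd h2 hb1
  rw [h1, h2]

end ALoop
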